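import Pool.Agent.Lib.MP_cd9e74_lc.Prog

/-! MP_cd9e74_lc, Q1: polynomials computed with fewer product steps than the addition chain length
of their degree. -/

open Polynomial Pool.Agent.MP_cd9e74_lc

namespace Pool.Agent.Results.MP_cd9e74_lc.InfinitelyMany

/-- For every `M` there is an odd `d > M` such that for every `h` and every nontrivial commutative
ring `R` (the problem is the case `R = ℤ`) some program over `R[x]` computes a monic polynomial of
degree `2 ^ h * d` with fewer than `l2 (2 ^ h * d)` product steps. -/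
theorem result (M : ℕ) : ∃ d : ℕ, M < d ∧ Odd d ∧
    ∀ (h : ℕ) (R : Type*) [CommRing R] [Nontrivial R], ∃ (L : List R[X]) (p : ℕ) (f : R[X]),
      IsProgram L p ∧ f ∈ L ∧ f.Monic ∧ f.natDegree = 2 ^ h * d ∧ p < l2 (2 ^ h * d) := by
  obtain ⟨d, c, h1, h2, h3, h4⟩ := exists_saving M
  refine ⟨d, h1, h2, ?_⟩
  intro h R _ _
  obtain ⟨L, f, h5, h6, h7, h8⟩ := h4 h R
  have h9 := le_l2 (e := h) (show 1 ≤ d by omega) h3
  rw [mul_comm] at h9 h8
  exact ⟨L, h + c, f, h5, h6, h7, h8, by omega⟩

end Pool.Agent.Results.MP_cd9e74_lc.InfinitelyMany
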